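import Pool.Agent.N785.AS.Chain

/-!
# The spectrum of the prime sum matrix: alternation for every `n`, and reduction of Q1 to irreducibility

`M n` is the `n × n` matrix whose `(i, j)` entry, `1 ≤ i, j ≤ n`, is `1` if `i + j` is prime and `0` otherwise.
We show that for EVERY `n` the eigenvalues of `M n` can be enumerated as `l 1, ..., l n` with
`l 1 ≥ - l 2 ≥ l 3 ≥ - l 4 ≥ ... ≥ (-1) ^ (n - 1) l n ≥ 0`, that all inequalities are strict for some
enumeration (the matrix has alternating spectrum, part (b) of the question) if and only if there is no `t`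
such that `t` and `-t` are both eigenvalues, and that this holds if the characteristic
polynomial is irreducible over the rational numbers. Hence Q1 is equivalent to its part (a): the
irreducibility of the characteristic polynomials for all `n ≥ 24` implies the alternation.

Proof. Let `S` be the diagonal matrix with the entries `(-1) ^ i`. As `i + j` is odd whenever it is a prime and
`(i, j) ≠ (1, 1)`, one has `S M S = - M + 2 E`, where `E` has the entry `1` at `(1, 1)` and is zero elsewhere. So `-M`
has the eigenvalues of `M - 2 E`, and the eigenvalues `m 1 ≥ ... ≥ m n` of `M` and those of `M - 2 E`, which are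
`- m n ≥ ... ≥ - m 1`, interlace: `m k ≥ - m (n + 1 - k) ≥ m (k + 1)`. This is the alternation, for the enumeration
`m 1, m n, m 2, m (n - 1), ...`. If `t` and `-t` were roots of the characteristic polynomial `f` and `f` were
irreducible, `f(-x) = (-1) ^ n f(x)`, and the trace of `M` would be `0`; but it is `1`.
-/

set_option autoImplicit false

open Finset Polynomial

namespace Pool.Agent.Results.MP_a21be6_nt.AlternatingSpectrum

/-- The matrix `M(n)`: the entry in row `i + 1` and column `j + 1` (`i, j = 0, ..., n - 1`) is `1` if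
`(i + 1) + (j + 1)` is a prime number and `0` otherwise. -/
def M (n : ℕ) : Matrix (Fin n) (Fin n) ℤ := fun i j => if ((i : ℕ) + 1 + ((j : ℕ) + 1)).Prime then 1 else 0

/-- the characteristic polynomial of `M(n)`, with real coefficients -/
noncomputable def chiReal (n : ℕ) : ℝ[X] := ((M n).map (Int.cast : ℤ → ℝ)).charpoly

/-- the characteristic polynomial of `M(n)`, with rational coefficients -/
noncomputable def chiRat (n : ℕ) : ℚ[X] := ((M n).map (Int.cast : ℤ → ℚ)).charpoly

/-- `l 0, ..., l (n - 1)` are the eigenvalues of `M(n)`, counted with multiplicity -/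
def IsEnumeration (n : ℕ) (l : Fin n → ℝ) : Prop := chiReal n = ∏ i, (X - C (l i))

/-- `M(n)` has alternating spectrum: for some enumeration `l 0, ..., l (n - 1)` of the eigenvalues one has
`l 0 > - l 1 > l 2 > - l 3 > ... > (-1) ^ (n - 1) l (n - 1) > 0`. -/
def HasAlternatingSpectrum (n : ℕ) : Prop :=
  ∃ l : Fin n → ℝ, IsEnumeration n l ∧
    (∀ i j : Fin n, i < j → (-1) ^ (j : ℕ) * l j < (-1) ^ (i : ℕ) * l i) ∧ ∀ i : Fin n, 0 < (-1) ^ (i : ℕ) * l i

/-- For every `n`: (1) the eigenvalues of `M(n)` can be enumerated as `l 0, ..., l (n - 1)` with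
`l 0 ≥ - l 1 ≥ l 2 ≥ ... ≥ (-1) ^ (n - 1) l (n - 1) ≥ 0`; (2) `M(n)` has alternating spectrum if and only if there is no
real number `t` such that `t` and `-t` are both eigenvalues; (3) `M(n)` has alternating spectrum if its
characteristic polynomial is irreducible over the rational numbers. -/
theorem result (n : ℕ) :
    (∃ l : Fin n → ℝ, IsEnumeration n l ∧
      (∀ i j : Fin n, i ≤ j → (-1) ^ (j : ℕ) * l j ≤ (-1) ^ (i : ℕ) * l i) ∧
      ∀ i : Fin n, 0 ≤ (-1) ^ (i : ℕ) * l i) ∧
    (HasAlternatingSpectrum n ↔ ¬ ∃ t : ℝ, (chiReal n).IsRoot t ∧ (chiReal n).IsRoot (-t)) ∧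
    (Irreducible (chiRat n) → HasAlternatingSpectrum n) := by
  have h1 : (¬ ∃ t : ℝ, (chiReal n).IsRoot t ∧ (chiReal n).IsRoot (-t)) → HasAlternatingSpectrum n := by
    intro h
    obtain ⟨a, b⟩ := N785.AS.strict n (fun i j hij => h ⟨N785.AS.lam n i,
      (N785.AS.root_lam n _).2 ⟨i, rfl⟩, (N785.AS.root_lam n _).2 ⟨j, by linarith⟩⟩)
    exact ⟨N785.AS.en n, N785.AS.charpoly_en n, a, b⟩
  refine ⟨⟨N785.AS.en n, N785.AS.charpoly_en n, (N785.AS.weak n).1, (N785.AS.weak n).2⟩, ⟨?_, h1⟩, ?_⟩
  · rintro ⟨l, hl, ha, hb⟩ ⟨t, ht1, ht2⟩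
    have hroot : ∀ s : ℝ, (chiReal n).IsRoot s → ∃ i, l i = s := by
      intro s hs
      rw [hl, IsRoot.def, eval_prod, prod_eq_zero_iff] at hs
      obtain ⟨i, -, hi⟩ := hs
      rw [eval_sub, eval_X, eval_C, sub_eq_zero] at hi
      exact ⟨i, hi.symm⟩
    obtain ⟨i, hi⟩ := hroot t ht1
    obtain ⟨j, hj⟩ := hroot (-t) ht2
    have habs : ∀ k : Fin n, (-1) ^ (k : ℕ) * l k = |l k| := by
      intro k
      rw [← abs_of_pos (hb k), abs_mul, abs_pow, abs_neg, abs_one, one_pow, one_mul]
    have hij : |l i| = |l j| := by rw [hi, hj, abs_neg]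
    rcases lt_trichotomy i j with h | h | h
    · have := ha i j h
      rw [habs, habs, hij] at this
      exact lt_irrefl _ this
    · subst h
      have h0 : l i = 0 := by linarith
      have := hb i
      rw [h0, mul_zero] at this
      exact lt_irrefl _ this
    · have := ha j i h
      rw [habs, habs, hij] at this
      exact lt_irrefl _ this
  · intro h
    apply h1
    rintro ⟨t, ht1, ht2⟩
    exact N785.AS.no_pair n h t ht1 ht2

end Pool.Agent.Results.MP_a21be6_nt.AlternatingSpectrum
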